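import Pool.Agent.Helper86.TH.Stmts

/-!
# Project TH, row NU: the product over the cells as a generating function
-/

namespace TH25

open TH Finset

variable {K : Type*} [Field K] [CharZero K]

/-- the alphabet `-sum z_c` has the generating polynomial `prod (1 - z_c w)` -/
theorem hc_neg_sum {ι : Type*} (S : Finset ι) (z : ι → K) (l : ℕ) :
    hc (fun j => -∑ c ∈ S, z c ^ (j + 1)) l =
      (∏ c ∈ S, (1 - Polynomial.C (z c) * Polynomial.X)).coeff l := by
  have h1 : hcS (fun j => -∑ c ∈ S, z c ^ (j + 1)) =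
      ((∏ c ∈ S, (1 - Polynomial.C (z c) * Polynomial.X) : Polynomial K) : PowerSeries K) := by
    have e : (fun j => -∑ c ∈ S, z c ^ (j + 1)) = fun j => ∑ c ∈ S, -(z c ^ (j + 1)) := by
      funext j
      rw [Finset.sum_neg_distrib]
    have e2 : ((∏ c ∈ S, (1 - Polynomial.C (z c) * Polynomial.X) : Polynomial K) :
        PowerSeries K) = ∏ c ∈ S, ((1 - Polynomial.C (z c) * Polynomial.X : Polynomial K) :
          PowerSeries K) := map_prod (Polynomial.coeToPowerSeries.ringHom (R := K)) _ _
    rw [e, hcS_sum, e2]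
    refine Finset.prod_congr rfl fun c _ => ?_
    rw [hcS_neg_geom, Polynomial.coe_sub, Polynomial.coe_mul, Polynomial.coe_one,
      Polynomial.coe_C, Polynomial.coe_X]
  have h2 := congrArg (PowerSeries.coeff l) h1
  rw [Polynomial.coeff_coe] at h2
  rw [← h2]
  simp [hcS]

omit [CharZero K] in
theorem natDegree_prod_le {ι : Type*} (S : Finset ι) (z : ι → K) :
    (∏ c ∈ S, (1 - Polynomial.C (z c) * Polynomial.X)).natDegree ≤ S.card := by
  refine le_trans (Polynomial.natDegree_prod_le _ _) ?_
  rw [Finset.card_eq_sum_ones]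
  refine Finset.sum_le_sum fun c _ => ?_
  refine le_trans (Polynomial.natDegree_sub_le _ _) ?_
  rw [Polynomial.natDegree_one]
  have := Polynomial.natDegree_C_mul_X_pow_le (z c) 1
  rw [pow_one] at this
  omega

theorem st_NU : ST_NU K := by
  classical
  intro q t μ
  set S : Finset (Σ _ : ℕ, ℕ) := μ.1.support.sigma (fun i => range (μ.1 i)) with hS
  set z : (Σ _ : ℕ, ℕ) → K := fun c => q ^ c.2 * t ^ c.1 with hz
  have hcard : S.card = TH.card μ := by
    rw [hS, Finset.card_sigma]
    unfold TH.card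
    refine Finset.sum_congr rfl fun i _ => ?_
    rw [Finset.card_range]
  have hPs : (fun j => -(Ps q t μ j)) = fun j => -∑ c ∈ S, z c ^ (j + 1) := by
    funext j
    unfold Ps csum
    rw [hS, Finset.sum_sigma]
  have hNu : ∀ v, Nu q t v μ = ∏ c ∈ S, (1 - v * z c) := by
    intro v
    unfold Nu cprod
    rw [hS, Finset.prod_sigma]
  have hdeg := natDegree_prod_le S z
  rw [hcard] at hdeg
  refine ⟨fun v => ?_, fun l hl => ?_⟩
  · rw [hNu, hPs]
    have h1 : ∏ c ∈ S, (1 - v * z c) =
        (∏ c ∈ S, (1 - Polynomial.C (z c) * Polynomial.X)).eval v := by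
      rw [Polynomial.eval_prod]
      refine Finset.prod_congr rfl fun c _ => ?_
      rw [Polynomial.eval_sub, Polynomial.eval_one, Polynomial.eval_mul, Polynomial.eval_C,
        Polynomial.eval_X, mul_comm]
    rw [h1, Polynomial.eval_eq_sum_range' (Nat.lt_succ_of_le hdeg)]
    refine Finset.sum_congr rfl fun l _ => ?_
    rw [hc_neg_sum]
    ring
  · rw [hPs, hc_neg_sum]
    exact Polynomial.coeff_eq_zero_of_natDegree_lt (lt_of_le_of_lt hdeg hl)

end TH25
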