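import Pool.Agent.Helper86.TH.Stmts

/-!
# Project TH, rows PFR and PF0: partial fractions
-/

namespace TH25

open TH Finset

variable {K : Type*} [Field K] [CharZero K]

omit [CharZero K] in
theorem AA_succ (t : K) (N : ℕ) (x : ℕ → K) (i : ℕ) (hi : i < N) :
    AA t (N + 1) x i = AA t N x i * ((x i - t * x N) / (x i - x N)) := by
  unfold AA
  have e : (range (N + 1)).erase i = insert N ((range N).erase i) := by
    ext l
    simp only [mem_erase, mem_range, mem_insert]
    omega
  rw [e, Finset.prod_insert (by simp)]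
  ring

omit [CharZero K] in
theorem AA_last (t : K) (N : ℕ) (x : ℕ → K) :
    AA t (N + 1) x N = (1 - t) * ∏ l ∈ range N, (x N - t * x l) / (x N - x l) := by
  unfold AA
  have e : (range (N + 1)).erase N = range N := by
    ext l
    simp only [mem_erase, mem_range]
    omega
  rw [e]

omit [CharZero K] in
/-- the last coefficient in terms of the other ones, from the identity at `w = 1 / x N` -/
theorem AA_last' (t : K) (N : ℕ) (x : ℕ → K) (h0 : ∀ i, i < N + 1 → x i ≠ 0)
    (hd : ∀ i j, i < N + 1 → j < N + 1 → x i = x j → i = j)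
    (ih : ∀ w : K, (∀ i, i < N → 1 - x i * w ≠ 0) →
      ∏ i ∈ range N, (1 - t * x i * w) / (1 - x i * w)
        = t ^ N + ∑ i ∈ range N, AA t N x i / (1 - x i * w)) :
    AA t (N + 1) x N = (1 - t) * (t ^ N - ∑ i ∈ range N, AA t N x i * (x N / (x i - x N))) := by
  have hN : x N ≠ 0 := h0 N (by omega)
  have hne : ∀ i, i < N → x i - x N ≠ 0 := by
    intro i hi h
    have := hd i N (by omega) (by omega) (sub_eq_zero.1 h)
    omega
  have h1 : ∀ i, i < N → 1 - x i * (x N)⁻¹ ≠ 0 := by
    intro i hi h
    apply hne i hi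
    have h2 : x i * (x N)⁻¹ = 1 := by linear_combination -h
    have h3 : x i = x N := by
      have := congrArg (· * x N) h2
      simp only [mul_assoc, inv_mul_cancel₀ hN, mul_one, one_mul] at this
      exact this
    rw [h3, sub_self]
  have h2 := ih (x N)⁻¹ h1
  rw [AA_last]
  congr 1
  have h3 : ∏ l ∈ range N, (x N - t * x l) / (x N - x l) =
      ∏ i ∈ range N, (1 - t * x i * (x N)⁻¹) / (1 - x i * (x N)⁻¹) := by
    refine Finset.prod_congr rfl fun i hi => ?_
    have hi' : i < N := Finset.mem_range.1 hi
    have h4 : x N - x i ≠ 0 := fun h => hne i hi' (by linear_combination -h)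
    have h5 := h1 i hi'
    field_simp
  rw [h3, h2, sub_eq_add_neg, ← Finset.sum_neg_distrib]
  congr 1
  refine Finset.sum_congr rfl fun i hi => ?_
  have hi' : i < N := Finset.mem_range.1 hi
  have h4 := hne i hi'
  have h5 := h1 i hi'
  have h6 : 1 - x i * (x N)⁻¹ = -((x i - x N) / x N) := by
    field_simp
    ring
  rw [h6]
  field_simp

omit [CharZero K] in
theorem pfr (t : K) (N : ℕ) (x : ℕ → K) (h0 : ∀ i, i < N → x i ≠ 0)
    (hd : ∀ i j, i < N → j < N → x i = x j → i = j) (w : K)
    (hw : ∀ i, i < N → 1 - x i * w ≠ 0) :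
    ∏ i ∈ range N, (1 - t * x i * w) / (1 - x i * w)
      = t ^ N + ∑ i ∈ range N, AA t N x i / (1 - x i * w) := by
  induction N generalizing w with
  | zero => simp
  | succ N ih =>
    have ih' := fun w hw => ih (fun i hi => h0 i (by omega))
      (fun i j hi hj => hd i j (by omega) (by omega)) w hw
    have hL := AA_last' t N x h0 hd ih'
    have hne : ∀ i, i < N → x i - x N ≠ 0 := by
      intro i hi h
      have := hd i N (by omega) (by omega) (sub_eq_zero.1 h)
      omega
    have hwN : 1 - x N * w ≠ 0 := hw N (by omega)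
    rw [Finset.prod_range_succ, ih' w (fun i hi => hw i (by omega)), Finset.sum_range_succ, hL]
    have h1 : ∑ i ∈ range N, AA t (N + 1) x i / (1 - x i * w) =
        ∑ i ∈ range N, (AA t N x i / (1 - x i * w) * ((1 - t * x N * w) / (1 - x N * w)) +
          (1 - t) / (1 - x N * w) * (AA t N x i * (x N / (x i - x N)))) := by
      refine Finset.sum_congr rfl fun i hi => ?_
      have hi' : i < N := Finset.mem_range.1 hi
      rw [AA_succ t N x i hi']
      have h2 := hne i hi'
      have h3 := hw i (by omega)
      field_simp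
      ring
    rw [h1, Finset.sum_add_distrib, ← Finset.sum_mul, ← Finset.mul_sum]
    generalize (∑ i ∈ range N, AA t N x i / (1 - x i * w)) = S1
    generalize (∑ i ∈ range N, AA t N x i * (x N / (x i - x N))) = S2
    field_simp
    ring

theorem st_PFR : ST_PFR K := by
  intro t N x h0 hd w hw
  exact pfr t N x h0 hd w hw

/-- one variable with the factor `1 - t` -/
theorem hc_one_var (t x : K) (n : ℕ) :
    hc (fun j => (1 - t ^ (j + 1)) * x ^ (j + 1)) n = (if n = 0 then t else 0) + (1 - t) * x ^ n := by
  have h1 : (fun j => (1 - t ^ (j + 1)) * x ^ (j + 1)) =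
      fun j => x ^ (j + 1) + -((t * x) ^ (j + 1)) := by
    funext j
    rw [mul_pow]
    ring
  rw [h1, hc_add_range]
  cases n with
  | zero => simp
  | succ n =>
    rw [Finset.sum_range_succ, Finset.sum_range_succ, Finset.sum_eq_zero]
    · rw [Nat.sub_self, hc_zero, show n + 1 - n = 1 by omega, hc_neg_geom_one, hc_geom, hc_geom]
      rw [if_neg (Nat.succ_ne_zero n)]
      ring
    · intro i hi
      have hi' : i < n := Finset.mem_range.1 hi
      have e : n + 1 - i = (n - 1 - i) + 2 := by omega
      rw [e, hc_neg_geom_two, mul_zero]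

omit [CharZero K] in
theorem geom_conv (a b : K) (hab : a - b ≠ 0) (n : ℕ) :
    ∑ i ∈ range (n + 1), a ^ i * b ^ (n - i) = (a ^ (n + 1) - b ^ (n + 1)) / (a - b) := by
  rw [eq_div_iff hab]
  have h := (Commute.all a b).geom_sum₂_mul (n + 1)
  rw [← h]
  congr 1

theorem pf0 (t : K) (N : ℕ) (x : ℕ → K) (h0 : ∀ i, i < N → x i ≠ 0)
    (hd : ∀ i j, i < N → j < N → x i = x j → i = j) (n : ℕ) :
    hc (fun j => (1 - t ^ (j + 1)) * ∑ i ∈ range N, x i ^ (j + 1)) n
      = (if n = 0 then t ^ N else 0) + ∑ i ∈ range N, AA t N x i * x i ^ n := by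
  induction N generalizing n with
  | zero =>
    have e : (fun j => (1 - t ^ (j + 1)) * ∑ i ∈ range 0, x i ^ (j + 1)) = fun _ => (0 : K) := by
      funext j
      simp
    rw [e]
    cases n with
    | zero => simp
    | succ n => rw [hc_zero_fun]; simp
  | succ N ih =>
    have ih' := ih (fun i hi => h0 i (by omega))
      (fun i j hi hj => hd i j (by omega) (by omega))
    have hL := AA_last' t N x h0 hd (fun w hw => pfr t N x (fun i hi => h0 i (by omega))
      (fun i j hi hj => hd i j (by omega) (by omega)) w hw)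
    have hne : ∀ i, i < N → x i - x N ≠ 0 := by
      intro i hi h
      have := hd i N (by omega) (by omega) (sub_eq_zero.1 h)
      omega
    have e : (fun j => (1 - t ^ (j + 1)) * ∑ i ∈ range (N + 1), x i ^ (j + 1)) =
        fun j => (1 - t ^ (j + 1)) * ∑ i ∈ range N, x i ^ (j + 1) +
          (1 - t ^ (j + 1)) * x N ^ (j + 1) := by
      funext j
      rw [Finset.sum_range_succ]
      ring
    rw [e, hc_add_range]
    have h1 : ∀ i ∈ range (n + 1),
        hc (fun j => (1 - t ^ (j + 1)) * ∑ i ∈ range N, x i ^ (j + 1)) i *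
          hc (fun j => (1 - t ^ (j + 1)) * x N ^ (j + 1)) (n - i) =
        (if i = n then t * ((if n = 0 then t ^ N else 0) + ∑ l ∈ range N, AA t N x l * x l ^ n)
          else 0) + ((if i = 0 then (1 - t) * t ^ N * x N ^ n else 0) +
            ∑ l ∈ range N, (1 - t) * AA t N x l * (x l ^ i * x N ^ (n - i))) := by
      intro i hi
      have hi' : i < n + 1 := Finset.mem_range.1 hi
      rw [ih', hc_one_var]
      have h2 : ∑ l ∈ range N, (1 - t) * AA t N x l * (x l ^ i * x N ^ (n - i)) =
          (∑ l ∈ range N, AA t N x l * x l ^ i) * ((1 - t) * x N ^ (n - i)) := by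
        rw [Finset.sum_mul]
        refine Finset.sum_congr rfl fun l _ => ?_
        ring
      rw [h2]
      by_cases hin : i = n
      · subst hin
        rw [Nat.sub_self, if_pos rfl, if_pos rfl]
        by_cases hi0 : i = 0
        · subst hi0
          simp only [if_true, pow_zero]
          ring
        · rw [if_neg hi0, if_neg hi0]
          ring
      · have hni : ¬ (n - i = 0) := by omega
        rw [if_neg hin, if_neg hni]
        by_cases hi0 : i = 0
        · subst hi0
          simp only [if_true, Nat.sub_zero]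
          ring
        · rw [if_neg hi0, if_neg hi0]
          ring
    rw [Finset.sum_congr rfl h1, Finset.sum_add_distrib, Finset.sum_add_distrib,
      Finset.sum_ite_eq' (range (n + 1)) n, if_pos (Finset.self_mem_range_succ n),
      Finset.sum_ite_eq' (range (n + 1)) 0, if_pos (Finset.mem_range.2 (Nat.succ_pos n)),
      Finset.sum_comm]
    have h3 : ∑ l ∈ range N, ∑ i ∈ range (n + 1),
        (1 - t) * AA t N x l * (x l ^ i * x N ^ (n - i)) =
        ∑ l ∈ range N, ((1 - t) * AA t N x l * (x l / (x l - x N)) * x l ^ n -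
          (1 - t) * x N ^ n * (AA t N x l * (x N / (x l - x N)))) := by
      refine Finset.sum_congr rfl fun l hl => ?_
      have hl' : l < N := Finset.mem_range.1 hl
      rw [← Finset.mul_sum, geom_conv _ _ (hne l hl')]
      have h4 := hne l hl'
      field_simp
      ring
    rw [h3, Finset.sum_sub_distrib, ← Finset.mul_sum, Finset.sum_range_succ, hL]
    have h5 : ∑ i ∈ range N, AA t (N + 1) x i * x i ^ n =
        ∑ l ∈ range N, (t * (AA t N x l * x l ^ n) +
          (1 - t) * AA t N x l * (x l / (x l - x N)) * x l ^ n) := by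
      refine Finset.sum_congr rfl fun l hl => ?_
      have hl' : l < N := Finset.mem_range.1 hl
      rw [AA_succ t N x l hl']
      have h4 := hne l hl'
      field_simp
      ring
    rw [h5, Finset.sum_add_distrib, ← Finset.mul_sum]
    by_cases hn : n = 0
    · rw [if_pos hn, if_pos hn]
      ring
    · rw [if_neg hn, if_neg hn]
      ring

theorem st_PF0 : ST_PF0 K := by
  intro t N x h0 hd n
  exact pf0 t N x h0 hd n

end TH25
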